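import Pool.Agent.Lib.MP_b1a3a4_al.MVS.TH.Iface

/-!
# Project MVS, part V: module LOOPS (13.7)

Closed paths and `Σ²`.
-/

set_option linter.all false

namespace Pool.Agent.Lib.MP_b1a3a4_al.MVS.TH.H35

open Pool.Agent.Lib.MP_b1a3a4_al.MVS.HO Pool.Agent.Lib.MP_b1a3a4_al.MVS.TH

section words

variable {S : Type} [Group S] {r : ℕ} (φ : FreeGroup (Fin r) →* S)

lemma wval_nil : wval φ [] = 1 := by
  have : (FreeGroup.mk ([] : List (Fin r × Bool))) = 1 := rfl
  simp [wval, this]

lemma wval_append (u v : List (Fin r × Bool)) : wval φ (u ++ v) = wval φ u * wval φ v := by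
  simp only [wval]
  rw [← map_mul, FreeGroup.mul_mk]

lemma wval_cons (x : Fin r × Bool) (v : List (Fin r × Bool)) :
    wval φ (x :: v) = wval φ [x] * wval φ v := by
  rw [← wval_append]; rfl

lemma wval_back (x : Fin r × Bool) : wval φ [x, (x.1, !x.2)] = 1 := by
  have : FreeGroup.mk [x, (x.1, !x.2)] = 1 := by
    obtain ⟨a, b⟩ := x
    have h : FreeGroup.Red.Step [(a, b), (a, !b)] [] := by
      simpa using (FreeGroup.Red.Step.not (L₁ := []) (L₂ := []) (x := a) (b := b))
    exact Quot.sound h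
  simp [wval, this]

/-- transport along a word -/
def Wd {P : Type} [Group P] (θ : S → S → P) : S → List (Fin r × Bool) → P
  | _, [] => 1
  | g, x :: w => θ g (g * wval φ [x]) * Wd θ (g * wval φ [x]) w

variable {P : Type} [Group P] (θ : S → S → P)

lemma Wd_append (g : S) (u v : List (Fin r × Bool)) :
    Wd φ θ g (u ++ v) = Wd φ θ g u * Wd φ θ (g * wval φ u) v := by
  induction u generalizing g with
  | nil => simp [Wd, wval_nil]
  | cons x u ih =>
    rw [List.cons_append, Wd, Wd, ih, wval_cons φ x u, mul_assoc, mul_assoc]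

/-- the cocycle property -/
def Coc (Z B : Set S) : Prop :=
  ∀ a b c, a ∈ Z → b ∈ Z → c ∈ Z →
    (∀ x ∈ ({a, b, c} : Set S), ∀ y ∈ ({a, b, c} : Set S), x⁻¹ * y ∈ B) → θ a b * θ b c = θ a c

lemma coc_self {Z B : Set S} (h : Coc θ Z B) (h1 : (1 : S) ∈ B) {a : S} (ha : a ∈ Z) :
    θ a a = 1 := by
  have := h a a a ha ha ha (by
    intro x hx y hy
    simp only [Set.mem_insert_iff, Set.mem_singleton_iff, or_self] at hx hy
    subst hx; subst hy; simpa using h1)
  simpa using this

lemma Wd_short {Z B : Set S} {L : ℕ} (h : Coc θ Z B)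
    (hB : ∀ p q : List (Fin r × Bool), p.length ≤ L → q.length ≤ L →
      (wval φ p)⁻¹ * wval φ q ∈ B) (g : S) (w : List (Fin r × Bool)) (hw : w.length ≤ L)
    (hZ : ∀ p, p <+: w → g * wval φ p ∈ Z) : Wd φ θ g w = θ g (g * wval φ w) := by
  have h1 : (1 : S) ∈ B := by
    have := hB [] [] (by simp) (by simp)
    simpa using this
  induction w using List.reverseRecOn with
  | nil =>
    have hg : g ∈ Z := by
      have := hZ [] (List.nil_prefix)
      simpa [wval_nil] using this
    simp [Wd, wval_nil, coc_self θ h h1 hg]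
  | append_singleton w x ih =>
    have hlen : w.length + 1 ≤ L := by simpa using hw
    have ih' := ih (by omega) (fun p hp => hZ p (hp.trans (List.prefix_append w [x])))
    rw [Wd_append, ih']
    have hg : g ∈ Z := by
      have := hZ [] (List.nil_prefix)
      simpa [wval_nil] using this
    have hgw : g * wval φ w ∈ Z := hZ w (List.prefix_append w [x])
    have hgx : g * wval φ (w ++ [x]) ∈ Z := hZ _ (List.prefix_refl _)
    have e1 : Wd φ θ (g * wval φ w) [x] = θ (g * wval φ w) (g * wval φ (w ++ [x])) := by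
      simp [Wd, wval_append, mul_assoc]
    rw [e1]
    refine h _ _ _ hg hgw hgx ?_
    have key : ∀ x' ∈ ({g, g * wval φ w, g * wval φ (w ++ [x])} : Set S),
        ∃ p : List (Fin r × Bool), p.length ≤ L ∧ x' = g * wval φ p := by
      intro x' hx'
      simp only [Set.mem_insert_iff, Set.mem_singleton_iff] at hx'
      rcases hx' with rfl | rfl | rfl
      · exact ⟨[], by simp, by simp [wval_nil]⟩
      · exact ⟨w, by omega, rfl⟩
      · exact ⟨w ++ [x], hw, rfl⟩
    intro x' hx' y' hy'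
    obtain ⟨p, hp, rfl⟩ := key x' hx'
    obtain ⟨q, hq, rfl⟩ := key y' hy'
    have := hB p q hp hq
    have e : (g * wval φ p)⁻¹ * (g * wval φ q) = (wval φ p)⁻¹ * wval φ q := by group
    rwa [e]

lemma Wd_elem {Z Z' B : Set S} {L : ℕ} (R : Set (FreeGroup (Fin r))) (h : Coc θ Z B)
    (hZZ : Z' ⊆ Z)
    (hB : ∀ p q : List (Fin r × Bool), p.length ≤ L → q.length ≤ L →
      (wval φ p)⁻¹ * wval φ q ∈ B) (h2 : 2 ≤ L) (hR : ∀ ρ ∈ R, ρ.toWord.length ≤ L)
    (hker : ∀ ρ ∈ R, φ ρ = 1) (g : S) (w w' : List (Fin r × Bool))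
    (hw : Elem φ R Z' g w w') : Wd φ θ g w = Wd φ θ g w' := by
  have h1 : (1 : S) ∈ B := by
    have := hB [] [] (by simp) (by simp)
    simpa using this
  -- a short closed word in the middle does not matter
  have key : ∀ (u v c : List (Fin r × Bool)), c.length ≤ L → wval φ c = 1 →
      PathIn φ Z' g (u ++ c ++ v) → Wd φ θ g (u ++ c ++ v) = Wd φ θ g (u ++ v) := by
    intro u v c hc hc1 hp
    have hs : Wd φ θ (g * wval φ u) c = 1 := by
      rw [Wd_short φ θ h hB (g * wval φ u) c hc, hc1, mul_one]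
      · refine coc_self θ h h1 (hZZ ?_)
        exact hp u (by rw [List.append_assoc]; exact List.prefix_append _ _)
      · intro p hpc
        have h3 : u ++ p <+: u ++ c ++ v := by
          rw [List.append_assoc, List.prefix_append_right_inj]
          exact hpc.trans (List.prefix_append _ _)
        have := hp _ h3
        rw [wval_append, ← mul_assoc] at this
        exact hZZ this
    rw [List.append_assoc, Wd_append, Wd_append φ θ (g * wval φ u) c v, hs, one_mul, hc1, mul_one,
      ← Wd_append]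
  cases hw with
  | back u v x hp => exact key u v _ (by simpa using h2) (wval_back φ x) hp
  | cell u v ρ hρ hp =>
    refine key u v _ (hR ρ hρ) ?_ hp
    simp [wval, FreeGroup.mk_toWord, hker ρ hρ]

lemma Wd_homotopic {Z Z' B : Set S} {L : ℕ} (R : Set (FreeGroup (Fin r))) (h : Coc θ Z B)
    (hZZ : Z' ⊆ Z)
    (hB : ∀ p q : List (Fin r × Bool), p.length ≤ L → q.length ≤ L →
      (wval φ p)⁻¹ * wval φ q ∈ B) (h2 : 2 ≤ L) (hR : ∀ ρ ∈ R, ρ.toWord.length ≤ L)
    (hker : ∀ ρ ∈ R, φ ρ = 1) (g : S) (w w' : List (Fin r × Bool))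
    (hw : Homotopic φ R Z' g w w') : Wd φ θ g w = Wd φ θ g w' := by
  induction hw with
  | rel a b hab => exact Wd_elem φ θ R h hZZ hB h2 hR hker g a b hab
  | refl a => rfl
  | symm a b _ ih => exact ih.symm
  | trans a b c _ _ ih1 ih2 => exact ih1.trans ih2

end words

/-- the word of a sequence of labels -/
def wf {S V : Type} [Group S] {r : ℕ} (lam : V → S) (wd : S → List (Fin r × Bool)) (f : ℕ → V) :
    ℕ → List (Fin r × Bool)
  | 0 => []
  | j + 1 => wf lam wd f j ++ wd ((lam (f j))⁻¹ * lam (f (j + 1)))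

lemma wval_wf {S V : Type} [Group S] {r : ℕ} (φ : FreeGroup (Fin r) →* S) (lam : V → S)
    (wd : S → List (Fin r × Bool)) (hwd : ∀ b, wval φ (wd b) = b) (f : ℕ → V) (M : ℕ) :
    wval φ (wf lam wd f M) = (lam (f 0))⁻¹ * lam (f M) := by
  induction M with
  | zero => simp [wf, wval_nil]
  | succ M ih => rw [wf, wval_append, ih, hwd]; group

lemma prefix_append_cases {α : Type} {p u v : List α} (h : p <+: u ++ v) :
    p <+: u ∨ ∃ q, p = u ++ q ∧ q <+: v := by
  rcases List.prefix_or_prefix_of_prefix h (List.prefix_append u v) with h1 | h1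
  · exact Or.inl h1
  · obtain ⟨q, rfl⟩ := h1
    exact Or.inr ⟨q, rfl, (List.prefix_append_right_inj _).1 h⟩

lemma path_wf {S V : Type} [Group S] {r : ℕ} (φ : FreeGroup (Fin r) →* S) (lam : V → S)
    (wd : S → List (Fin r × Bool)) (hwd : ∀ b, wval φ (wd b) = b) (f : ℕ → V) (M : ℕ) (Z : Set S)
    (B₀ : Set S) (h0 : lam (f 0) ∈ Z)
    (hB : ∀ j, j < M → (lam (f j))⁻¹ * lam (f (j + 1)) ∈ B₀)
    (hZ : ∀ j, j < M → ∀ b ∈ B₀, ∀ p, p <+: wd b → lam (f j) * wval φ p ∈ Z) :
    PathIn φ Z (lam (f 0)) (wf lam wd f M) := by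
  induction M with
  | zero =>
    intro p hp
    have : p = [] := by simpa [wf] using hp
    subst this
    simpa [wval_nil] using h0
  | succ M ih =>
    intro p hp
    rw [wf] at hp
    rcases prefix_append_cases hp with h1 | ⟨q, rfl, hq⟩
    · exact ih (fun j hj => hB j (by omega)) (fun j hj => hZ j (by omega)) p h1
    · rw [wval_append, wval_wf φ lam wd hwd]
      have := hZ M (by omega) _ (hB M (by omega)) q hq
      have e : lam (f 0) * ((lam (f 0))⁻¹ * lam (f M) * wval φ q) = lam (f M) * wval φ q := by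
        group
      rwa [e]

/-- telescoping of the product of a sequence of labels -/
lemma prod_wf {S V P : Type} [Group S] [Group P] {r : ℕ} (φ : FreeGroup (Fin r) →* S)
    (lam : V → S) (wd : S → List (Fin r × Bool)) (hwd : ∀ b, wval φ (wd b) = b)
    (o : S → V) (ψ : V → V → P) (G : Set V) (B₁ : Set S)
    (hψ : ∀ u v w, u ∈ G → v ∈ G → w ∈ G →
      (∀ x ∈ ({u, v, w} : Set V), ∀ y ∈ ({u, v, w} : Set V), (lam x)⁻¹ * lam y ∈ B₁) →
      ψ u v * ψ v w = ψ u w) (hlo : ∀ g, lam (o g) = g) (f : ℕ → V) (M : ℕ) (B₀ : Set S)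
    (hf : ∀ j, j ≤ M → f j ∈ G) (hof : ∀ j, j ≤ M → o (lam (f j)) ∈ G)
    (h1 : (1 : S) ∈ B₁) (hBB : ∀ b ∈ B₀, b ∈ B₁ ∧ b⁻¹ ∈ B₁)
    (hB : ∀ j, j < M → (lam (f j))⁻¹ * lam (f (j + 1)) ∈ B₀)
    (hW : ∀ j, j < M → Wd φ (fun a b => ψ (o a) (o b)) (lam (f j))
      (wd ((lam (f j))⁻¹ * lam (f (j + 1)))) = ψ (o (lam (f j))) (o (lam (f (j + 1))))) :
    ((List.range M).map (fun j => ψ (f j) (f (j + 1)))).prod =
      ψ (f 0) (o (lam (f 0))) * Wd φ (fun a b => ψ (o a) (o b)) (lam (f 0)) (wf lam wd f M) *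
        ψ (o (lam (f M))) (f M) := by
  -- pairs with the same label
  have hself : ∀ u, u ∈ G → ψ u u = 1 := by
    intro u hu
    have := hψ u u u hu hu hu (by
      intro x hx y hy
      simp only [Set.mem_insert_iff, Set.mem_singleton_iff, or_self] at hx hy
      subst hx; subst hy; simpa using h1)
    simpa using this
  have htri : ∀ u v w, u ∈ G → v ∈ G → w ∈ G → ∀ b, b ∈ B₁ → b⁻¹ ∈ B₁ →
      (∀ x ∈ ({u, v, w} : Set V), lam x = lam u ∨ lam x = lam u * b) →
      ψ u v * ψ v w = ψ u w := by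
    intro u v w hu hv hw b hb hb' hx
    refine hψ u v w hu hv hw ?_
    intro x hx' y hy'
    rcases hx x hx' with e1 | e1 <;> rcases hx y hy' with e2 | e2
    · rw [e1, e2, inv_mul_cancel]; exact h1
    · rw [e1, e2, inv_mul_cancel_left]; exact hb
    · rw [e1, e2]
      have : (lam u * b)⁻¹ * lam u = b⁻¹ := by group
      rw [this]; exact hb'
    · rw [e1, e2, inv_mul_cancel]; exact h1
  induction M with
  | zero =>
    have hf0 := hf 0 le_rfl
    have hof0 := hof 0 le_rfl
    have : ψ (f 0) (o (lam (f 0))) * ψ (o (lam (f 0))) (f 0) = ψ (f 0) (f 0) := by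
      refine htri _ _ _ hf0 hof0 hf0 1 h1 (by simpa using h1) ?_
      intro x hx
      simp only [Set.mem_insert_iff, Set.mem_singleton_iff] at hx
      rcases hx with rfl | rfl | rfl
      · exact Or.inl rfl
      · exact Or.inl (hlo _)
      · exact Or.inl rfl
    simp [wf, Wd, this, hself _ hf0]
  | succ M ih =>
    have ih' := ih (fun j hj => hf j (by omega)) (fun j hj => hof j (by omega))
      (fun j hj => hB j (by omega)) (fun j hj => hW j (by omega))
    rw [List.range_succ, List.map_append, List.prod_append, ih']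
    simp only [List.map_cons, List.map_nil, List.prod_cons, List.prod_nil, mul_one]
    rw [wf, Wd_append, wval_wf φ lam wd hwd]
    have e0 : lam (f 0) * ((lam (f 0))⁻¹ * lam (f M)) = lam (f M) := by group
    rw [e0, hW M (by omega)]
    have hu := hf M (by omega)
    have hv := hf (M + 1) (by omega)
    have hou := hof M (by omega)
    have hov := hof (M + 1) (by omega)
    have hb := hBB _ (hB M (by omega))
    have hlv : lam (f (M + 1)) = lam (f M) * ((lam (f M))⁻¹ * lam (f (M + 1))) := by group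
    -- ψ (o u) u * ψ u v = ψ (o u) v
    have t1 : ψ (o (lam (f M))) (f M) * ψ (f M) (f (M + 1)) =
        ψ (o (lam (f M))) (f (M + 1)) := by
      refine htri _ _ _ hou hu hv _ hb.1 hb.2 ?_
      intro x hx
      simp only [Set.mem_insert_iff, Set.mem_singleton_iff] at hx
      rcases hx with rfl | rfl | rfl
      · exact Or.inl rfl
      · exact Or.inl (hlo _).symm
      · right; rw [hlo]; exact hlv
    have t2 : ψ (o (lam (f M))) (o (lam (f (M + 1)))) * ψ (o (lam (f (M + 1)))) (f (M + 1)) =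
        ψ (o (lam (f M))) (f (M + 1)) := by
      refine htri _ _ _ hou hov hv _ hb.1 hb.2 ?_
      intro x hx
      simp only [Set.mem_insert_iff, Set.mem_singleton_iff] at hx
      rcases hx with rfl | rfl | rfl
      · exact Or.inl rfl
      · right; rw [hlo, hlo]; exact hlv
      · right; rw [hlo]; exact hlv
    rw [mul_assoc, t1, ← t2]
    simp only [mul_assoc]

theorem loops : LoopsStatement := by
  intro S V _ _ χ h lam hL r φ R hφ hR hker hS B₀ hB₀
  obtain ⟨DS, hDS⟩ := hS r φ R hφ hR hker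
  -- the base vertex
  obtain ⟨v₁⟩ := hL.ne
  set v₀ : V := (lam v₁)⁻¹ • v₁ with hv₀
  have hlv₀ : lam v₀ = 1 := by rw [hv₀, hL.smul, inv_mul_cancel]
  set o : S → V := fun g => g • v₀ with ho
  have hlo : ∀ g, lam (o g) = g := by intro g; rw [ho]; simp only; rw [hL.smul, hlv₀, mul_one]
  have hho : ∀ g, h (o g) = h v₀ + Multiplicative.toAdd (χ g) := by
    intro g; rw [ho]; exact hL.ht g v₀
  -- the constant C
  obtain ⟨C, hC⟩ : ∃ C : ℝ, ∀ v, lam v = 1 → |h v| ≤ C := by
    obtain ⟨C, hC⟩ := (hL.fib.image (fun v => |h v|)).bddAbove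
    exact ⟨C, fun v hv => hC ⟨v, hv, rfl⟩⟩
  have hCv : ∀ v, |h v - Multiplicative.toAdd (χ (lam v))| ≤ C := by
    intro v
    have h1 : lam ((lam v)⁻¹ • v) = 1 := by rw [hL.smul, inv_mul_cancel]
    have h2 := hL.ht (lam v) ((lam v)⁻¹ • v)
    rw [smul_inv_smul] at h2
    have h3 := hC _ h1
    rw [h2]
    simpa using h3
  have hC0 : 0 ≤ C := le_trans (abs_nonneg _) (hC v₀ hlv₀)
  -- the words
  have hw : ∀ b : S, ∃ w : List (Fin r × Bool), wval φ w = b := by
    intro b
    obtain ⟨x, hx⟩ := hφ b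
    exact ⟨x.toWord, by simp [wval, FreeGroup.mk_toWord, hx]⟩
  choose wd hwd using hw
  obtain ⟨L₁, hL₁⟩ : ∃ L : ℕ, ∀ b ∈ B₀, (wd b).length ≤ L := by
    obtain ⟨L, hL⟩ := (hB₀.image (fun b => (wd b).length)).bddAbove
    exact ⟨L, fun b hb => hL ⟨b, hb, rfl⟩⟩
  obtain ⟨L₂, hL₂⟩ : ∃ L : ℕ, ∀ ρ ∈ R, ρ.toWord.length ≤ L := by
    obtain ⟨L, hL⟩ := (hR.image (fun ρ => ρ.toWord.length)).bddAbove
    exact ⟨L, fun b hb => hL ⟨b, hb, rfl⟩⟩
  set L : ℕ := L₁ + L₂ + 2 with hLdef
  set Ws : Set (List (Fin r × Bool)) := {w | w.length ≤ L} with hWs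
  have hWfin : Ws.Finite := List.finite_length_le _ _
  set B₁ : Set S := Set.image2 (fun p q => (wval φ p)⁻¹ * wval φ q) Ws Ws with hB₁
  have hB₁fin : B₁.Finite := Set.Finite.image2 _ hWfin hWfin
  have hBmem : ∀ p q : List (Fin r × Bool), p.length ≤ L → q.length ≤ L →
      (wval φ p)⁻¹ * wval φ q ∈ B₁ := fun p q hp hq => ⟨p, hp, q, hq, rfl⟩
  obtain ⟨D', hD'⟩ : ∃ D' : ℝ, ∀ w ∈ Ws, |Multiplicative.toAdd (χ (wval φ w))| ≤ D' := by
    obtain ⟨D', hD'⟩ := (hWfin.image (fun w => |Multiplicative.toAdd (χ (wval φ w))|)).bddAbove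
    exact ⟨D', fun w hw => hD' ⟨w, hw, rfl⟩⟩
  have hD'0 : 0 ≤ D' := le_trans (abs_nonneg _) (hD' [] (by simp [hWs]))
  set DP : ℝ := max DS 0 with hDP
  have hDP0 : 0 ≤ DP := le_max_right _ _
  have hDPS : DS ≤ DP := le_max_left _ _
  refine ⟨B₁, 2 * C + D' + 2 * DP, hB₁fin, by positivity, ?_⟩
  intro t P _ ψ hψ M f g hfg0 hfgM hht hstep
  set D : ℝ := 2 * C + D' + 2 * DP with hD
  set G : Set V := {v | t - D ≤ h v} with hG
  set Z : Set S := {s | t - D ≤ h (o s)} with hZ
  set θ : S → S → P := fun a b => ψ (o a) (o b) with hθ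
  have hψ' : ∀ u v w, u ∈ G → v ∈ G → w ∈ G →
      (∀ x ∈ ({u, v, w} : Set V), ∀ y ∈ ({u, v, w} : Set V), (lam x)⁻¹ * lam y ∈ B₁) →
      ψ u v * ψ v w = ψ u w := fun u v w hu hv hw hx => hψ u v w hu hv hw hx
  have hcoc : Coc θ Z B₁ := by
    intro a b c ha hb hc hx
    refine hψ (o a) (o b) (o c) ha hb hc ?_
    intro x hx' y hy'
    have hx'' : lam x ∈ ({a, b, c} : Set S) := by
      simp only [Set.mem_insert_iff, Set.mem_singleton_iff] at hx' ⊢
      rcases hx' with rfl | rfl | rfl
      · left; exact hlo _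
      · right; left; exact hlo _
      · right; right; exact hlo _
    have hy'' : lam y ∈ ({a, b, c} : Set S) := by
      simp only [Set.mem_insert_iff, Set.mem_singleton_iff] at hy' ⊢
      rcases hy' with rfl | rfl | rfl
      · left; exact hlo _
      · right; left; exact hlo _
      · right; right; exact hlo _
    exact hx _ hx'' _ hy''
  have h1B : (1 : S) ∈ B₁ := by
    have := hBmem [] [] (by simp) (by simp)
    simpa using this
  have hBB : ∀ b ∈ B₀, b ∈ B₁ ∧ b⁻¹ ∈ B₁ := by
    intro b hb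
    have hl : (wd b).length ≤ L := by have := hL₁ b hb; omega
    constructor
    · have := hBmem [] (wd b) (by simp) hl
      simpa [wval_nil, hwd] using this
    · have := hBmem (wd b) [] hl (by simp)
      simpa [wval_nil, hwd] using this
  -- heights
  have habs : ∀ v, t ≤ h v → t - C ≤ Multiplicative.toAdd (χ (lam v)) := by
    intro v hv
    have := (abs_le.1 (hCv v)).2
    linarith
  have hv₀C : -C ≤ h v₀ := (abs_le.1 (hC v₀ hlv₀)).1
  set t₁ : ℝ := t - C - D' with ht₁
  have habove : ∀ s, s ∈ above χ (t₁ - 2 * DP) → s ∈ Z := by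
    intro s hs
    simp only [above, Set.mem_setOf_eq] at hs
    simp only [hZ, Set.mem_setOf_eq]
    rw [hho]
    linarith
  have hmul : ∀ (s : S) (p : List (Fin r × Bool)), t - C ≤ Multiplicative.toAdd (χ s) →
      p.length ≤ L → s * wval φ p ∈ above χ t₁ := by
    intro s p hs hp
    simp only [above, Set.mem_setOf_eq]
    rw [map_mul, toAdd_mul]
    have := (abs_le.1 (hD' p hp)).1
    linarith
  have habmono : ∀ (a b : ℝ), a ≤ b → above χ b ⊆ above χ a := by
    intro a b hab s hs
    exact le_trans hab hs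
  have hZ1 : above χ t₁ ⊆ Z := fun s hs => habove s (habmono _ _ (by linarith) hs)
  -- one sequence
  have main : ∀ k : ℕ → V, (∀ j, j ≤ M → t ≤ h (k j)) →
      (∀ j, j < M → (lam (k j))⁻¹ * lam (k (j + 1)) ∈ B₀) →
      ((List.range M).map (fun j => ψ (k j) (k (j + 1)))).prod =
        ψ (k 0) (o (lam (k 0))) * Wd φ θ (lam (k 0)) (wf lam wd k M) *
          ψ (o (lam (k M))) (k M) ∧ PathIn φ (above χ t₁) (lam (k 0)) (wf lam wd k M) := by
    intro k hk hkB
    constructor
    · refine prod_wf φ lam wd hwd o ψ G B₁ hψ' hlo k M B₀ ?_ ?_ h1B hBB hkB ?_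
      · intro j hj
        have := hk j hj
        simp only [hG, Set.mem_setOf_eq]
        have : 0 ≤ D := by positivity
        linarith [hk j hj]
      · intro j hj
        have h3 := hmul (lam (k j)) [] (habs _ (hk j hj)) (by simp)
        rw [wval_nil, mul_one] at h3
        exact hZ1 h3
      · intro j hj
        have hb := hkB j hj
        have hl : (wd ((lam (k j))⁻¹ * lam (k (j + 1)))).length ≤ L := by
          have := hL₁ _ hb; omega
        have := Wd_short φ θ hcoc hBmem (lam (k j)) _ hl (by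
          intro p hp
          exact hZ1 (hmul _ p (habs _ (hk j (by omega))) (le_trans hp.length_le hl)))
        rw [hwd] at this
        rw [show (fun a b => ψ (o a) (o b)) = θ from rfl, this]
        simp [hθ]
    · refine path_wf φ lam wd hwd k M _ B₀ ?_ hkB ?_
      · have h3 := hmul (lam (k 0)) [] (habs _ (hk 0 (by omega))) (by simp)
        rwa [wval_nil, mul_one] at h3
      · intro j hj b hb p hp
        refine hmul _ p (habs _ (hk j (by omega))) ?_
        have h3 := hp.length_le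
        have h4 := hL₁ b hb
        omega
  obtain ⟨hf1, hf2⟩ := main f (fun j hj => (hht j hj).1) (fun j hj => (hstep j hj).1)
  obtain ⟨hg1, hg2⟩ := main g (fun j hj => (hht j hj).2) (fun j hj => (hstep j hj).2)
  rw [hf1, hg1, hfg0, hfgM]
  -- a path back
  have hM := (hht M le_rfl).2
  have h0 := (hht 0 (by omega)).2
  have hgM : lam (g M) ∈ above χ t₁ := by
    have h3 := hmul (lam (g M)) [] (habs _ hM) (by simp)
    rwa [wval_nil, mul_one] at h3
  have hg0 : lam (g 0) ∈ above χ t₁ := by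
    have h3 := hmul (lam (g 0)) [] (habs _ h0) (by simp)
    rwa [wval_nil, mul_one] at h3
  obtain ⟨wb, hwb, hwbp⟩ := (hDS t₁).1 (lam (g M)) (lam (g 0)) hgM hg0
  have closed : ∀ k : ℕ → V, k 0 = g 0 → k M = g M →
      PathIn φ (above χ t₁) (lam (k 0)) (wf lam wd k M) →
      Wd φ θ (lam (g 0)) (wf lam wd k M) * Wd φ θ (lam (g M)) wb = 1 := by
    intro k hk0 hkM hkp
    have hval : wval φ (wf lam wd k M) = (lam (g 0))⁻¹ * lam (g M) := by
      rw [wval_wf φ lam wd hwd, hk0, hkM]
    have hval2 : wval φ (wf lam wd k M ++ wb) = 1 := by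
      rw [wval_append, hval, mul_assoc, hwb, inv_mul_cancel]
    have hp : PathIn φ (above χ (t₁ - DP)) (lam (g 0)) (wf lam wd k M ++ wb) := by
      intro p hp
      rcases prefix_append_cases hp with h3 | ⟨q, rfl, hq⟩
      · have := hkp p h3
        rw [hk0] at this
        exact habmono _ _ (by linarith) this
      · have := hwbp q hq
        rw [wval_append, hval]
        have e : lam (g 0) * ((lam (g 0))⁻¹ * lam (g M) * wval φ q) = lam (g M) * wval φ q := by
          group
        rw [e]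
        exact habmono _ _ (by linarith) this
    have hhom := (hDS (t₁ - DP)).2 (lam (g 0)) _ hval2 hp
    have hsub : above χ (t₁ - DP - DS) ⊆ Z := by
      intro s hs
      exact habove s (habmono _ _ (by linarith) hs)
    have hkR : ∀ ρ ∈ R, φ ρ = 1 := by
      intro ρ hρ
      have : ρ ∈ φ.ker := by rw [hker]; exact Subgroup.subset_normalClosure hρ
      exact this
    have := Wd_homotopic φ θ R hcoc hsub hBmem (by omega)
      (fun ρ hρ => by have := hL₂ ρ hρ; omega) hkR (lam (g 0)) _ _ hhom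
    rw [Wd_append, hval] at this
    have e : lam (g 0) * ((lam (g 0))⁻¹ * lam (g M)) = lam (g M) := by group
    rw [e] at this
    simpa [Wd] using this
  have c1 := closed f hfg0 hfgM hf2
  have c2 := closed g rfl rfl hg2
  have c3 : Wd φ θ (lam (g 0)) (wf lam wd f M) = Wd φ θ (lam (g 0)) (wf lam wd g M) :=
    mul_right_cancel (c1.trans c2.symm)
  rw [c3]

end Pool.Agent.Lib.MP_b1a3a4_al.MVS.TH.H35
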